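import Pool.Agent.helper4.NF.SpecA

/-!
# Project nf, module DRV: derivative of the Fourier transforms
-/

set_option autoImplicit false

open Complex MeasureTheory

namespace Pool.Agent.NF

open Pool.Agent.helper84.DM Pool.Agent.helper78.ED Pool.Agent.DH Pool.Agent.ZD

theorem DRV_ex_norm (x : ℝ) : ‖ex x‖ = 1 := by
  unfold ex
  exact Complex.norm_exp_ofReal_mul_I x

theorem DRV_ex_cont : Continuous ex := by
  unfold ex
  fun_prop

theorem DRV_deriv (G : ℝ → ℂ) (hG : Continuous G) (hs : ∀ x, 5 < |x| → G x = 0) (u : ℝ) :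
    HasDerivAt (fun u : ℝ => ∫ x : ℝ, G x * ex (-(u * x)))
      (∫ x : ℝ, G x * (-((x : ℂ) * I)) * ex (-(u * x))) u := by
  have hcs : HasCompactSupport G := by
    apply HasCompactSupport.of_support_subset_isCompact (isCompact_Icc (a := (-5 : ℝ)) (b := 5))
    intro x hx
    by_contra h
    apply hx
    apply hs
    rw [Set.mem_Icc, not_and_or, not_le, not_le] at h
    rcases h with h | h
    · rw [lt_abs]; right; linarith
    · rw [lt_abs]; left; exact h
  have hint : Integrable G := hG.integrable_of_hasCompactSupport hcs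
  have key := hasDerivAt_integral_of_dominated_loc_of_deriv_le (μ := (volume : Measure ℝ))
    (F := fun u x => G x * ex (-(u * x)))
    (F' := fun u x => G x * (-((x : ℂ) * I)) * ex (-(u * x)))
    (x₀ := u) (s := Set.univ) (bound := fun x => 5 * ‖G x‖) Filter.univ_mem ?_ ?_ ?_ ?_ ?_ ?_
  · exact key.2
  · refine Filter.Eventually.of_forall fun v => ?_
    exact (hG.mul (DRV_ex_cont.comp (by fun_prop))).aestronglyMeasurable
  · have : Integrable (fun x => ex (-(u * x)) * G x) := by
      refine hint.bdd_mul (c := 1) ?_ ?_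
      · exact (DRV_ex_cont.comp (by fun_prop)).aestronglyMeasurable
      · exact Filter.Eventually.of_forall fun x => (DRV_ex_norm _).le
    refine this.congr (Filter.Eventually.of_forall fun x => ?_)
    exact mul_comm _ _
  · exact ((hG.mul (by fun_prop)).mul (DRV_ex_cont.comp (by fun_prop))).aestronglyMeasurable
  · refine Filter.Eventually.of_forall fun x v _ => ?_
    rw [norm_mul, norm_mul, DRV_ex_norm, mul_one, norm_neg, norm_mul, Complex.norm_I, mul_one,
      Complex.norm_real, mul_comm]
    by_cases hx : 5 < |x|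
    · rw [hs x hx]
      simp
    · rw [not_lt] at hx
      gcongr
      exact hx
  · exact hint.norm.const_mul 5
  · refine Filter.Eventually.of_forall fun x v _ => ?_
    have h1 : HasDerivAt (fun v : ℝ => ((-(v * x) : ℝ) : ℂ) * I) (-((x : ℂ) * I)) v := by
      have h2 : HasDerivAt (fun v : ℝ => ((-(v * x) : ℝ) : ℂ)) (-(x : ℂ)) v := by
        have h3 : HasDerivAt (fun v : ℝ => (-(v * x) : ℝ)) (-x) v := by
          have := (hasDerivAt_mul_const x (x := v)).neg
          exact this
        have h4 := h3.ofReal_comp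
        push_cast at h4 ⊢
        exact h4
      have h5 := h2.mul_const I
      rw [neg_mul] at h5
      exact h5
    have h6 := h1.cexp.const_mul (G x)
    unfold ex
    refine h6.congr_deriv ?_
    ring

theorem DRV_bound (G : ℝ → ℂ) (u : ℝ) :
    ‖∫ x : ℝ, G x * ex (-(u * x))‖ ≤ ∫ x : ℝ, ‖G x‖ := by
  refine (norm_integral_le_integral_norm _).trans (le_of_eq ?_)
  congr 1
  funext x
  rw [norm_mul, DRV_ex_norm, mul_one]

theorem DRV (hEXB : EXB_stmt) : DRV_stmt := by
  obtain ⟨hPhi, -, -, -, hmul, hc⟩ := hEXB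
  refine ⟨fun g hg X M => ⟨?_, ?_⟩, fun X M u => ?_⟩
  · rw [continuous_iff_continuousAt]
    intro u
    exact (DRV_deriv (GW g X M) (hc g hg X M).1 (hc g hg X M).2 u).continuousAt
  · exact ⟨∫ x : ℝ, ‖GW g X M x‖, fun u => DRV_bound (GW g X M) u⟩
  · have h1 := DRV_deriv (GW Phi X M) (hc Phi hPhi X M).1 (hc Phi hPhi X M).2 u
    have e : (∫ x : ℝ, GW Phi X M x * (-((x : ℂ) * I)) * ex (-(u * x))) = -(I * BW PhL X M u) := by
      unfold BW
      rw [← MeasureTheory.integral_const_mul, ← MeasureTheory.integral_neg]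
      congr 1
      funext x
      rw [← hmul X M x]
      ring
    rw [e] at h1
    exact h1

end Pool.Agent.NF
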